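import Pool.Agent.H135R2.Rigid.Defs

set_option autoImplicit false

/-! # Uniquely localizable vertices: the definitions of the statement -/

namespace Pool.Agent.H174R2.UL

open Pool.Agent.H135R2.Planar

/-- `v` is uniquely localizable in the framework `(G, p)` relative to `P`: `q v = p v` for every
`(G, q)` which is equivalent to `(G, p)` and agrees with `p` on `P`. -/
def UniquelyLocalizableAt {V : Type*} (G : SimpleGraph V) (p : V → Plane) (P : Set V) (v : V) :
    Prop :=
  ∀ q : V → Plane, Equivalent G p q → (∀ b ∈ P, q b = p b) → q v = p v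

/-- `v` is uniquely localizable in the graph `G` relative to `P`: this holds for all generic
frameworks `(G, p)`. -/
def UniquelyLocalizable {V : Type*} (G : SimpleGraph V) (P : Set V) (v : V) : Prop :=
  ∀ p : V → Plane, IsGeneric p → UniquelyLocalizableAt G p P v

/-- `G + K(P)`: the graph `G` together with all edges between two vertices of `P`. -/
def addClique {V : Type*} (G : SimpleGraph V) (P : Set V) : SimpleGraph V where
  Adj a b := G.Adj a b ∨ (a ≠ b ∧ a ∈ P ∧ b ∈ P)
  symm := ⟨by
    rintro a b (h | ⟨h1, h2, h3⟩)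
    · exact Or.inl h.symm
    · exact Or.inr ⟨h1.symm, h3, h2⟩⟩
  loopless := ⟨by
    rintro a (h | ⟨h, -⟩)
    · exact G.loopless.irrefl a h
    · exact h rfl⟩

/-- Two edges are related if they are equal or lie in a common circuit of `R_2(G)`, the rigidity
matroid of `G` (circuits of the rows of the rigidity matrix at generic `p`). -/
def Related {V : Type*} [DecidableEq V] (G : SimpleGraph V) (e f : Sym2 V) : Prop :=
  e = f ∨ ∃ C ⊆ G.edgeSet, IsCircuit C ∧ e ∈ C ∧ f ∈ C

/-- `H` is an `R_2`-component of `G`: the edges of one class of the equivalence relation generated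
by `Related`, together with their endpoints. -/
def IsR2Component {V : Type*} [DecidableEq V] (G : SimpleGraph V) (H : G.Subgraph) : Prop :=
  ∃ e ∈ G.edgeSet, H.edgeSet = {f | f ∈ G.edgeSet ∧ Relation.EqvGen (Related G) e f} ∧
    H.verts = {v | ∃ f ∈ H.edgeSet, v ∈ f}

/-- There are `k` distinct and pairwise openly disjoint `x`-`y` paths in `H`,
i.e. `κ_H(x, y) ≥ k`. -/
def HasDisjointPaths {W : Type*} (H : SimpleGraph W) (k : ℕ) (x y : W) : Prop :=
  ∃ P : Fin k → H.Walk x y, Function.Injective P ∧ (∀ i, (P i).IsPath) ∧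
    ∀ i j, i ≠ j → ∀ v ∈ (P i).support, v ∈ (P j).support → v = x ∨ v = y

end Pool.Agent.H174R2.UL
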