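import Pool.Agent.H135R2.Pin.Thm

set_option autoImplicit false
set_option linter.unusedSectionVars false
set_option linter.unusedSimpArgs false

/-! # Four vertices all of whose pairs lie in closures of classes -/

namespace Pool.Agent.H174R2.UL

open Set Pool.Agent.H135R2.Rigid Pool.Agent.H135R2.Planar Pool.Agent.H135R2.Pin

variable {V : Type*} [Fintype V] [DecidableEq V] {p₀ : Conf V} {E : Set (Sym2 V)}

theorem not_cl_empty (hp : Gen p₀) {x y : V} (hxy : x ≠ y) : ¬ Cl p₀ (∅ : Set (Sym2 V)) s(x, y) := by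
  intro h
  obtain ⟨e, he, -⟩ := mem_supp_of_cl hp hxy h
  exact he

/-- Two classes with a common pair in their closures are equal. -/
theorem cls_unique (hp : Gen p₀) {f g : Sym2 V} {x y : V} (hxy : x ≠ y)
    (h1 : Cl p₀ (cls p₀ E f) s(x, y)) (h2 : Cl p₀ (cls p₀ E g) s(x, y)) :
    cls p₀ E f = cls p₀ E g := by
  by_contra hne
  have hsub : cls p₀ E g ⊆ E \ cls p₀ E f := by
    intro k hk
    refine ⟨hk.1, fun hk' => hne ?_⟩
    rw [← cls_eq hk, ← cls_eq hk']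
  have hdsp : Disjoint (Submodule.span ℝ (row p₀ '' cls p₀ E f))
      (Submodule.span ℝ (row p₀ '' (E \ cls p₀ E f))) :=
    disjoint_span disjoint_sdiff_right (cls_direct _)
  have h3 : row p₀ s(x, y) = 0 :=
    Submodule.disjoint_def.1 hdsp _ h1 (cl_mono hsub h2)
  apply not_cl_empty hp hxy
  unfold Cl
  rw [h3]
  exact Submodule.zero_mem _

/-- The closure of a class contains every pair of its support. -/
theorem cl_of_supp (hp : Gen p₀) (hd : ∀ c, s(c, c) ∉ E) {f : Sym2 V} {x y : V}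
    (hx : x ∈ supp (cls p₀ E f)) (hy : y ∈ supp (cls p₀ E f)) : Cl p₀ (cls p₀ E f) s(x, y) :=
  cls_rigid hp hd f x hx y hy

/-- If all pairs of four vertices lie in closures of classes, then the class of a pair has a
third vertex among the four. -/
theorem third (hp : Gen p₀) {f : Sym2 V} {z u w t : V} (hzu : z ≠ u)
    (hzw : z ≠ w) (hzt : z ≠ t) (huw : u ≠ w) (hut : u ≠ t) (hwt : w ≠ t)
    (h : Cl p₀ (cls p₀ E f) s(z, u))
    (h1 : ∃ g, Cl p₀ (cls p₀ E g) s(z, w)) (h2 : ∃ g, Cl p₀ (cls p₀ E g) s(z, t))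
    (h3 : ∃ g, Cl p₀ (cls p₀ E g) s(u, w)) (h4 : ∃ g, Cl p₀ (cls p₀ E g) s(u, t))
    (h5 : ∃ g, Cl p₀ (cls p₀ E g) s(w, t)) :
    w ∈ supp (cls p₀ E f) ∨ t ∈ supp (cls p₀ E f) := by
  set B : Set (Sym2 V) := {s(z, w), s(z, t), s(u, w), s(u, t), s(w, t)} with hB
  have hdsp : Disjoint (Submodule.span ℝ (row p₀ '' cls p₀ E f))
      (Submodule.span ℝ (row p₀ '' (E \ cls p₀ E f))) :=
    disjoint_span disjoint_sdiff_right (cls_direct _)
  have hBc : Cl p₀ B s(z, u) := by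
    refine hp.glue (u := w) (v := t) hwt ?_ ?_ ?_ ?_ ?_
    · exact cl_self (by simp [hB])
    · rw [Sym2.eq_swap]; exact cl_self (by simp [hB])
    · rw [Sym2.eq_swap]; exact cl_self (by simp [hB])
    · rw [Sym2.eq_swap]; exact cl_self (by simp [hB])
    · rw [Sym2.eq_swap]; exact cl_self (by simp [hB])
  have hcov : ∀ g ∈ B, Cl p₀ (cls p₀ E f) g ∨ Cl p₀ (E \ cls p₀ E f) g := by
    have key : ∀ a b : V, (∃ g, Cl p₀ (cls p₀ E g) s(a, b)) →
        Cl p₀ (cls p₀ E f) s(a, b) ∨ Cl p₀ (E \ cls p₀ E f) s(a, b) := by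
      rintro a b ⟨g, hg⟩
      by_cases hfg : cls p₀ E g = cls p₀ E f
      · left; rw [← hfg]; exact hg
      · right
        have hsub : cls p₀ E g ⊆ E \ cls p₀ E f := by
          intro k hk
          refine ⟨hk.1, fun hk' => hfg ?_⟩
          rw [← cls_eq hk, ← cls_eq hk']
        exact cl_mono hsub hg
    intro g hg
    rw [hB] at hg
    simp only [mem_insert_iff, mem_singleton_iff] at hg
    rcases hg with rfl | rfl | rfl | rfl | rfl
    · exact key _ _ h1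
    · exact key _ _ h2
    · exact key _ _ h3
    · exact key _ _ h4
    · exact key _ _ h5
  have hs := cl_split hdsp h hBc hcov
  have hne : {g | g ∈ B ∧ Cl p₀ (cls p₀ E f) g}.Nonempty := by
    rw [nonempty_iff_ne_empty]
    intro h0
    rw [h0] at hs
    exact not_cl_empty hp hzu hs
  obtain ⟨g, hg, hgc⟩ := hne
  rw [hB] at hg
  simp only [mem_insert_iff, mem_singleton_iff] at hg
  rcases hg with rfl | rfl | rfl | rfl | rfl
  · left; rw [Sym2.eq_swap] at hgc; exact mem_supp_of_cl hp hzw.symm hgc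
  · right; rw [Sym2.eq_swap] at hgc; exact mem_supp_of_cl hp hzt.symm hgc
  · left; rw [Sym2.eq_swap] at hgc; exact mem_supp_of_cl hp huw.symm hgc
  · right; rw [Sym2.eq_swap] at hgc; exact mem_supp_of_cl hp hut.symm hgc
  · left; exact mem_supp_of_cl hp hwt hgc

theorem fourth (hp : Gen p₀) (hd : ∀ c, s(c, c) ∉ E) {f : Sym2 V} {z u w t : V} (hzu : z ≠ u)
    (hzw : z ≠ w) (hzt : z ≠ t) (huw : u ≠ w) (hut : u ≠ t) (hwt : w ≠ t)
    (h : Cl p₀ (cls p₀ E f) s(z, u)) (hw : w ∈ supp (cls p₀ E f))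
    (h1 : ∃ g, Cl p₀ (cls p₀ E g) s(z, w)) (h2 : ∃ g, Cl p₀ (cls p₀ E g) s(z, t))
    (h3 : ∃ g, Cl p₀ (cls p₀ E g) s(u, w)) (h4 : ∃ g, Cl p₀ (cls p₀ E g) s(u, t))
    (h5 : ∃ g, Cl p₀ (cls p₀ E g) s(w, t)) :
    t ∈ supp (cls p₀ E f) := by
  obtain ⟨g, hg⟩ := h2
  have hz : z ∈ supp (cls p₀ E f) := mem_supp_of_cl hp hzu h
  have hz' : z ∈ supp (cls p₀ E g) := mem_supp_of_cl hp hzt hg
  have ht' : t ∈ supp (cls p₀ E g) := mem_supp_of_cl hp hzt.symm (by rw [Sym2.eq_swap]; exact hg)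
  have h4' : ∃ g, Cl p₀ (cls p₀ E g) s(t, u) := by rw [Sym2.eq_swap]; exact h4
  have h5' : ∃ g, Cl p₀ (cls p₀ E g) s(t, w) := by rw [Sym2.eq_swap]; exact h5
  rcases third hp (f := g) (z := z) (u := t) (w := u) (t := w) hzt hzu hzw hut.symm hwt.symm huw
    hg ⟨f, h⟩ h1 h4' h5' h3 with hu | hw'
  · have : cls p₀ E f = cls p₀ E g := cls_unique hp hzu h (cl_of_supp hp hd hz' hu)
    rw [this]; exact ht'
  · have : cls p₀ E f = cls p₀ E g :=
      cls_unique hp hzw (cl_of_supp hp hd hz hw) (cl_of_supp hp hd hz' hw')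
    rw [this]; exact ht'

/-- If all pairs of four vertices lie in closures of classes, then they lie in the closure of
one class. -/
theorem four (hp : Gen p₀) (hd : ∀ c, s(c, c) ∉ E) {f : Sym2 V} {z u w t : V} (hzu : z ≠ u)
    (hzw : z ≠ w) (hzt : z ≠ t) (huw : u ≠ w) (hut : u ≠ t) (hwt : w ≠ t)
    (h : Cl p₀ (cls p₀ E f) s(z, u))
    (h1 : ∃ g, Cl p₀ (cls p₀ E g) s(z, w)) (h2 : ∃ g, Cl p₀ (cls p₀ E g) s(z, t))
    (h3 : ∃ g, Cl p₀ (cls p₀ E g) s(u, w)) (h4 : ∃ g, Cl p₀ (cls p₀ E g) s(u, t))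
    (h5 : ∃ g, Cl p₀ (cls p₀ E g) s(w, t)) :
    w ∈ supp (cls p₀ E f) ∧ t ∈ supp (cls p₀ E f) := by
  rcases third hp hzu hzw hzt huw hut hwt h h1 h2 h3 h4 h5 with hw | ht
  · exact ⟨hw, fourth hp hd hzu hzw hzt huw hut hwt h hw h1 h2 h3 h4 h5⟩
  · have h5' : ∃ g, Cl p₀ (cls p₀ E g) s(t, w) := by rw [Sym2.eq_swap]; exact h5
    exact ⟨fourth hp hd hzu hzt hzw hut huw hwt.symm h ht h2 h1 h4 h3 h5', ht⟩

end Pool.Agent.H174R2.UL
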