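import Pool.Agent.H174R2.UL.Defs
import Pool.Agent.H135R2.Pin.Thm

set_option autoImplicit false
set_option linter.unusedSectionVars false
set_option linter.unusedSimpArgs false

/-! # Uniquely localizable vertices and globally linked pairs -/

namespace Pool.Agent.H174R2.UL

open Set Pool.Agent.H135R2 Pool.Agent.H135R2.Rigid Pool.Agent.H135R2.Planar
  Pool.Agent.H135R2.Pin

/-- Unique localizability in coordinates. -/
theorem loc_conf {V : Type*} {G : SimpleGraph V} {P : Set V} {v : V}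
    (h : UniquelyLocalizable G P v) {p q : Conf V} (hp : Gen p)
    (hq : ∀ a b, G.Adj a b → Rigid.sq q a b = Rigid.sq p a b) (hP : ∀ b ∈ P, q b = p b) :
    q v = p v := by
  have h1 := h (ofConf p) hp (ofConf q) (fun a b hab => by
    rw [dist_eq_iff]
    exact hq a b hab) (fun b hb => by
    unfold ofConf
    rw [hP b hb])
  have h2 : toConf (ofConf q) v = toConf (ofConf p) v := by
    unfold toConf
    rw [h1]
  exact h2

/-- Reflection in the line `n · z = c`. -/
noncomputable def mir (n : Fin 2 → ℝ) (c : ℝ) (z : Fin 2 → ℝ) : Fin 2 → ℝ :=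
  ![z 0 - 2 * ((n 0 * z 0 + n 1 * z 1 - c) / (n 0 ^ 2 + n 1 ^ 2)) * n 0,
    z 1 - 2 * ((n 0 * z 0 + n 1 * z 1 - c) / (n 0 ^ 2 + n 1 ^ 2)) * n 1]

theorem mir_dist (n : Fin 2 → ℝ) (c : ℝ) (z w : Fin 2 → ℝ) (h : n 0 ^ 2 + n 1 ^ 2 ≠ 0) :
    (mir n c z 0 - mir n c w 0) ^ 2 + (mir n c z 1 - mir n c w 1) ^ 2 =
      (z 0 - w 0) ^ 2 + (z 1 - w 1) ^ 2 := by
  simp only [mir, Matrix.cons_val_zero, Matrix.cons_val_one]
  field_simp
  ring

theorem mir_fix (n : Fin 2 → ℝ) (c : ℝ) (z : Fin 2 → ℝ) (h : n 0 * z 0 + n 1 * z 1 = c) :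
    mir n c z = z := by
  ext i
  fin_cases i <;> simp [mir, h]

theorem mir_ne (n : Fin 2 → ℝ) (c : ℝ) (z : Fin 2 → ℝ) (hn : n 0 ^ 2 + n 1 ^ 2 ≠ 0)
    (h : n 0 * z 0 + n 1 * z 1 ≠ c) : mir n c z ≠ z := by
  intro h0
  have h1 := congrFun h0 0
  have h2 := congrFun h0 1
  simp only [mir, Matrix.cons_val_zero, Matrix.cons_val_one] at h1 h2
  have h3 : (n 0 * z 0 + n 1 * z 1 - c) / (n 0 ^ 2 + n 1 ^ 2) ≠ 0 :=
    div_ne_zero (sub_ne_zero.2 h) hn
  have h4 : (n 0 * z 0 + n 1 * z 1 - c) / (n 0 ^ 2 + n 1 ^ 2) * n 0 = 0 := by linarith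
  have h5 : (n 0 * z 0 + n 1 * z 1 - c) / (n 0 ^ 2 + n 1 ^ 2) * n 1 = 0 := by linarith
  have h6 := (mul_eq_zero.1 h4).resolve_left h3
  have h7 := (mul_eq_zero.1 h5).resolve_left h3
  apply hn
  rw [h6, h7]; ring

/-- If `p v` is not on a line which contains all of `p P` then `v` is not localizable. -/
theorem not_loc {V : Type*} {G : SimpleGraph V} {P : Set V} {v : V}
    (h : UniquelyLocalizable G P v) {p : Conf V} (hp : Gen p) (n : Fin 2 → ℝ) (c : ℝ)
    (hn : n 0 ^ 2 + n 1 ^ 2 ≠ 0) (hP : ∀ b ∈ P, n 0 * p b 0 + n 1 * p b 1 = c)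
    (hv : n 0 * p v 0 + n 1 * p v 1 ≠ c) : False := by
  apply mir_ne n c (p v) hn hv
  exact loc_conf h (q := fun u => mir n c (p u)) hp (fun a b _ => mir_dist n c (p a) (p b) hn)
    (fun b hb => mir_fix n c (p b) (hP b hb))

variable {V : Type*} [Fintype V] [DecidableEq V]

theorem three_le {G : SimpleGraph V} {P : Set V} {v : V} (hv : v ∉ P)
    (h : UniquelyLocalizable G P v) : 3 ≤ P.ncard := by
  by_contra hcard
  push Not at hcard
  obtain ⟨p, hp⟩ := exists_generic V
  have hsub : P.ncard = 0 ∨ P.ncard = 1 ∨ P.ncard = 2 := by omega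
  rcases hsub with h0 | h1 | h2
  · rw [ncard_eq_zero] at h0
    subst h0
    refine not_loc h hp ![1, 0] (p v 0 + 1) (by simp) (by simp) (by simp)
  · rw [ncard_eq_one] at h1
    obtain ⟨a, rfl⟩ := h1
    have hva : v ≠ a := fun h0 => hv (by rw [h0]; simp)
    have hne := hp.ne hva
    have hn : (p v 0 - p a 0) ^ 2 + (p v 1 - p a 1) ^ 2 ≠ 0 := by
      intro h0
      apply hne
      have h3 : p v 0 - p a 0 = 0 ∧ p v 1 - p a 1 = 0 := by
        constructor <;> nlinarith [sq_nonneg (p v 0 - p a 0), sq_nonneg (p v 1 - p a 1)]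
      ext i
      fin_cases i
      · simp only [Fin.zero_eta]; linarith [h3.1]
      · simp only [Fin.mk_one]; linarith [h3.2]
    refine not_loc h hp ![p v 0 - p a 0, p v 1 - p a 1]
      ((p v 0 - p a 0) * p a 0 + (p v 1 - p a 1) * p a 1) (by simpa using hn) ?_ ?_
    · rintro b hb
      rw [mem_singleton_iff] at hb
      subst hb
      simp
    · simp only [Matrix.cons_val_zero, Matrix.cons_val_one]
      intro h0
      apply hn
      linear_combination h0
  · rw [ncard_eq_two] at h2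
    obtain ⟨a, b, hab, rfl⟩ := h2
    have hva : v ≠ a := fun h0 => hv (by rw [h0]; simp)
    have hvb : v ≠ b := fun h0 => hv (by rw [h0]; simp)
    have har := hp.area_ne hab hva.symm hvb.symm
    have hne := hp.ne hab
    have hn : (p b 1 - p a 1) ^ 2 + (p b 0 - p a 0) ^ 2 ≠ 0 := by
      intro h0
      apply hne
      have h3 : p b 0 - p a 0 = 0 ∧ p b 1 - p a 1 = 0 := by
        constructor <;> nlinarith [sq_nonneg (p b 0 - p a 0), sq_nonneg (p b 1 - p a 1)]
      ext i
      fin_cases i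
      · simp only [Fin.zero_eta]; linarith [h3.1]
      · simp only [Fin.mk_one]; linarith [h3.2]
    refine not_loc h hp ![-(p b 1 - p a 1), p b 0 - p a 0]
      (-(p b 1 - p a 1) * p a 0 + (p b 0 - p a 0) * p a 1) (by
        simp only [Matrix.cons_val_zero, Matrix.cons_val_one, neg_sq]
        exact hn) ?_ ?_
    · rintro c hc
      rw [mem_insert_iff, mem_singleton_iff] at hc
      rcases hc with rfl | rfl
      · simp
      · simp only [Matrix.cons_val_zero, Matrix.cons_val_one]; ring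
    · simp only [Matrix.cons_val_zero, Matrix.cons_val_one]
      intro h0
      apply har
      unfold area
      linear_combination h0

/-- The affine map which takes the triangle `q a, q b, q c` to `p a, p b, p c`. -/
noncomputable def aff (p q : Conf V) (a b c : V) (u : V) : Fin 2 → ℝ :=
  ![p a 0 + (((p b 0 - p a 0) * (q c 1 - q a 1) - (p c 0 - p a 0) * (q b 1 - q a 1)) *
        (q u 0 - q a 0) +
      (-(p b 0 - p a 0) * (q c 0 - q a 0) + (p c 0 - p a 0) * (q b 0 - q a 0)) *
        (q u 1 - q a 1)) / area q a b c,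
    p a 1 + (((p b 1 - p a 1) * (q c 1 - q a 1) - (p c 1 - p a 1) * (q b 1 - q a 1)) *
        (q u 0 - q a 0) +
      (-(p b 1 - p a 1) * (q c 0 - q a 0) + (p c 1 - p a 1) * (q b 0 - q a 0)) *
        (q u 1 - q a 1)) / area q a b c]

theorem aff_a (p q : Conf V) (a b c : V) : aff p q a b c a = p a := by
  ext i
  fin_cases i <;> simp [aff]

theorem aff_b (p q : Conf V) {a b c : V} (h : area q a b c ≠ 0) : aff p q a b c b = p b := by
  have e0 : ((p b 0 - p a 0) * (q c 1 - q a 1) - (p c 0 - p a 0) * (q b 1 - q a 1)) *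
        (q b 0 - q a 0) +
      (-(p b 0 - p a 0) * (q c 0 - q a 0) + (p c 0 - p a 0) * (q b 0 - q a 0)) *
        (q b 1 - q a 1) = (p b 0 - p a 0) * area q a b c := by unfold area; ring
  have e1 : ((p b 1 - p a 1) * (q c 1 - q a 1) - (p c 1 - p a 1) * (q b 1 - q a 1)) *
        (q b 0 - q a 0) +
      (-(p b 1 - p a 1) * (q c 0 - q a 0) + (p c 1 - p a 1) * (q b 0 - q a 0)) *
        (q b 1 - q a 1) = (p b 1 - p a 1) * area q a b c := by unfold area; ring
  unfold aff
  rw [e0, e1, mul_div_assoc, mul_div_assoc, div_self h]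
  ext i
  fin_cases i <;> simp

theorem aff_c (p q : Conf V) {a b c : V} (h : area q a b c ≠ 0) : aff p q a b c c = p c := by
  have e0 : ((p b 0 - p a 0) * (q c 1 - q a 1) - (p c 0 - p a 0) * (q b 1 - q a 1)) *
        (q c 0 - q a 0) +
      (-(p b 0 - p a 0) * (q c 0 - q a 0) + (p c 0 - p a 0) * (q b 0 - q a 0)) *
        (q c 1 - q a 1) = (p c 0 - p a 0) * area q a b c := by unfold area; ring
  have e1 : ((p b 1 - p a 1) * (q c 1 - q a 1) - (p c 1 - p a 1) * (q b 1 - q a 1)) *
        (q c 0 - q a 0) +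
      (-(p b 1 - p a 1) * (q c 0 - q a 0) + (p c 1 - p a 1) * (q b 0 - q a 0)) *
        (q c 1 - q a 1) = (p c 1 - p a 1) * area q a b c := by unfold area; ring
  unfold aff
  rw [e0, e1, mul_div_assoc, mul_div_assoc, div_self h]
  ext i
  fin_cases i <;> simp

/-- Heron's formula. -/
theorem area_sq (p : Conf V) (a b c : V) :
    4 * area p a b c ^ 2 = 4 * Rigid.sq p a b * Rigid.sq p a c -
      (Rigid.sq p a b + Rigid.sq p a c - Rigid.sq p b c) ^ 2 := by
  unfold area Rigid.sq; ring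

theorem aff_sq {p q : Conf V} {a b c : V} (h : area q a b c ≠ 0)
    (h1 : Rigid.sq q a b = Rigid.sq p a b) (h2 : Rigid.sq q a c = Rigid.sq p a c)
    (h3 : Rigid.sq q b c = Rigid.sq p b c) (u w : V) :
    Rigid.sq (aff p q a b c) u w = Rigid.sq q u w := by
  have e1 : (q a 0 - q b 0) ^ 2 + (q a 1 - q b 1) ^ 2 = (p a 0 - p b 0) ^ 2 + (p a 1 - p b 1) ^ 2 := h1
  have e2 : (q a 0 - q c 0) ^ 2 + (q a 1 - q c 1) ^ 2 = (p a 0 - p c 0) ^ 2 + (p a 1 - p c 1) ^ 2 := h2
  have e3 : (q b 0 - q c 0) ^ 2 + (q b 1 - q c 1) ^ 2 = (p b 0 - p c 0) ^ 2 + (p b 1 - p c 1) ^ 2 := h3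
  have e4 : (q b 0 - q a 0) * (q c 0 - q a 0) + (q b 1 - q a 1) * (q c 1 - q a 1) =
      (p b 0 - p a 0) * (p c 0 - p a 0) + (p b 1 - p a 1) * (p c 1 - p a 1) := by
    linear_combination (e1 + e2 - e3) / 2
  have hA : Rigid.sq (aff p q a b c) u w * area q a b c ^ 2 = Rigid.sq q u w * area q a b c ^ 2 := by
    have f0 : (aff p q a b c u 0 - aff p q a b c w 0) * area q a b c =
        ((p b 0 - p a 0) * (q c 1 - q a 1) - (p c 0 - p a 0) * (q b 1 - q a 1)) *
          (q u 0 - q w 0) +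
        (-(p b 0 - p a 0) * (q c 0 - q a 0) + (p c 0 - p a 0) * (q b 0 - q a 0)) *
          (q u 1 - q w 1) := by
      have e : ∀ s t : ℝ, (p a 0 + s / area q a b c - (p a 0 + t / area q a b c)) *
          area q a b c = s - t := by
        intro s t
        field_simp
        ring
      change (p a 0 + _ / area q a b c - (p a 0 + _ / area q a b c)) * area q a b c = _
      rw [e]
      ring
    have f1 : (aff p q a b c u 1 - aff p q a b c w 1) * area q a b c =
        ((p b 1 - p a 1) * (q c 1 - q a 1) - (p c 1 - p a 1) * (q b 1 - q a 1)) *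
          (q u 0 - q w 0) +
        (-(p b 1 - p a 1) * (q c 0 - q a 0) + (p c 1 - p a 1) * (q b 0 - q a 0)) *
          (q u 1 - q w 1) := by
      have e : ∀ s t : ℝ, (p a 1 + s / area q a b c - (p a 1 + t / area q a b c)) *
          area q a b c = s - t := by
        intro s t
        field_simp
        ring
      change (p a 1 + _ / area q a b c - (p a 1 + _ / area q a b c)) * area q a b c = _
      rw [e]
      ring
    have f2 : Rigid.sq (aff p q a b c) u w * area q a b c ^ 2 =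
        ((aff p q a b c u 0 - aff p q a b c w 0) * area q a b c) ^ 2 +
        ((aff p q a b c u 1 - aff p q a b c w 1) * area q a b c) ^ 2 := by
      unfold Rigid.sq; ring
    rw [f2, f0, f1]
    unfold Rigid.sq area
    set U := q u 0 - q w 0
    set W := q u 1 - q w 1
    set x1 := q b 0 - q a 0 with hx1
    set y1 := q b 1 - q a 1 with hy1
    set x2 := q c 0 - q a 0 with hx2
    set y2 := q c 1 - q a 1 with hy2
    have g1 : x1 ^ 2 + y1 ^ 2 = (p b 0 - p a 0) ^ 2 + (p b 1 - p a 1) ^ 2 := by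
      rw [hx1, hy1]; linear_combination e1
    have g2 : x2 ^ 2 + y2 ^ 2 = (p c 0 - p a 0) ^ 2 + (p c 1 - p a 1) ^ 2 := by
      rw [hx2, hy2]; linear_combination e2
    linear_combination (-(y2 * U - x2 * W) ^ 2) * g1 - (y1 * U - x1 * W) ^ 2 * g2 +
      2 * (y2 * U - x2 * W) * (y1 * U - x1 * W) * e4
  exact mul_right_cancel₀ (pow_ne_zero 2 h) hA

/-- A point of the plane is determined by its distances to three points in general position. -/
theorem eq_of_three {p r : Conf V} {a b c u : V} (h : area p a b c ≠ 0)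
    (ha : r a = p a) (hb : r b = p b) (hc : r c = p c)
    (h1 : Rigid.sq r a u = Rigid.sq p a u) (h2 : Rigid.sq r b u = Rigid.sq p b u)
    (h3 : Rigid.sq r c u = Rigid.sq p c u) : r u = p u := by
  unfold Rigid.sq at h1 h2 h3
  rw [ha] at h1
  rw [hb] at h2
  rw [hc] at h3
  have k1 : (p b 0 - p a 0) * (r u 0 - p u 0) + (p b 1 - p a 1) * (r u 1 - p u 1) = 0 := by
    linear_combination (h1 - h2) / 2
  have k2 : (p c 0 - p a 0) * (r u 0 - p u 0) + (p c 1 - p a 1) * (r u 1 - p u 1) = 0 := by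
    linear_combination (h1 - h3) / 2
  have k3 : area p a b c * (r u 0 - p u 0) = 0 := by
    unfold area
    linear_combination (p c 1 - p a 1) * k1 - (p b 1 - p a 1) * k2
  have k4 : area p a b c * (r u 1 - p u 1) = 0 := by
    unfold area
    linear_combination (p b 0 - p a 0) * k2 - (p c 0 - p a 0) * k1
  have k5 := (mul_eq_zero.1 k3).resolve_left h
  have k6 := (mul_eq_zero.1 k4).resolve_left h
  ext i
  fin_cases i
  · simp only [Fin.zero_eta]; linarith
  · simp only [Fin.mk_one]; linarith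

/-- If `v` is uniquely localizable in `G` relative to `P`, then it is globally linked in `G + K(P)`
with every vertex of `P`. -/
theorem glinked_of_loc {G : SimpleGraph V} {P : Set V} {v : V} (hv : v ∉ P)
    (h : UniquelyLocalizable G P v) {b : V} (hb : b ∈ P) :
    GloballyLinked (addClique G P) v b := by
  have h3 := three_le hv h
  obtain ⟨x, hx, y, hy, z, hz, hxy, hxz, hyz⟩ := (two_lt_ncard (s := P)).1 (by omega)
  intro p hp q hq
  rw [dist_eq_iff]
  set p' := toConf p with hp'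
  set q' := toConf q with hq'
  have hgp : Gen p' := hp
  have hq2 : ∀ a b, (addClique G P).Adj a b → Rigid.sq q' a b = Rigid.sq p' a b := by
    intro a b hab
    have := hq a b hab
    rwa [dist_eq_iff] at this
  have hPP : ∀ a ∈ P, ∀ b ∈ P, Rigid.sq q' a b = Rigid.sq p' a b := by
    intro a ha b hb
    by_cases hab : a = b
    · rw [hab]; unfold Rigid.sq; ring
    · exact hq2 a b (Or.inr ⟨hab, ha, hb⟩)
  have hareap : area p' x y z ≠ 0 := hgp.area_ne hxy hxz hyz
  have hareaq : area q' x y z ≠ 0 := by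
    have k1 := area_sq p' x y z
    have k2 := area_sq q' x y z
    rw [hPP x hx y hy, hPP x hx z hz, hPP y hy z hz, ← k1] at k2
    intro h0
    rw [h0] at k2
    have : area p' x y z ^ 2 = 0 := by linarith
    exact hareap (pow_eq_zero_iff (two_ne_zero) |>.1 this)
  set r := aff p' q' x y z with hr
  have hrs : ∀ u w, Rigid.sq r u w = Rigid.sq q' u w := fun u w =>
    aff_sq hareaq (hPP x hx y hy) (hPP x hx z hz) (hPP y hy z hz) u w
  have hrx : r x = p' x := aff_a _ _ _ _ _
  have hry : r y = p' y := aff_b _ _ hareaq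
  have hrz : r z = p' z := aff_c _ _ hareaq
  have hrP : ∀ b ∈ P, r b = p' b := fun b hb =>
    eq_of_three hareap hrx hry hrz (by rw [hrs, hPP x hx b hb]) (by rw [hrs, hPP y hy b hb])
      (by rw [hrs, hPP z hz b hb])
  have hrv : r v = p' v := loc_conf h hgp (fun a b hab => by rw [hrs, hq2 a b (Or.inl hab)]) hrP
  rw [← hrs]
  unfold Rigid.sq
  rw [hrv, hrP b hb]

end Pool.Agent.H174R2.UL
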