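import Pool.Agent.H174R2.UL.Paths
import Pool.Agent.H174R2.UL.Loc
import Pool.Agent.H174R2.UL.K4

set_option autoImplicit false
set_option linter.unusedSectionVars false
set_option linter.unusedSimpArgs false

/-! # Uniquely localizable vertices: the main theorem -/

namespace Pool.Agent.H174R2.UL

open Set Pool.Agent.H135R2 Pool.Agent.H135R2.Rigid Pool.Agent.H135R2.Planar
  Pool.Agent.H135R2.Pin

variable {V : Type*} [Fintype V] [DecidableEq V]

theorem isCircuit_iff {p₀ : Conf V} (hp : Gen p₀) (C : Set (Sym2 V)) :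
    IsCircuit C ↔ Crc p₀ C := by
  unfold IsCircuit Crc
  rw [isIndependent_iff hp]
  refine and_congr_right fun _ => forall_congr' fun D => ?_
  rw [isIndependent_iff hp]

theorem related_iff {p₀ : Conf V} (hp : Gen p₀) (G : SimpleGraph V) (e f : Sym2 V) :
    Related G e f ↔ Pool.Agent.H135R2.Pin.Related G e f := by
  unfold Related Pool.Agent.H135R2.Pin.Related
  refine or_congr_right (exists_congr fun C => ?_)
  rw [isCircuit_iff hp, countCircuit_iff hp]

theorem isR2Component_iff {p₀ : Conf V} (hp : Gen p₀) (G : SimpleGraph V) (H : G.Subgraph) :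
    IsR2Component G H ↔ Pool.Agent.H135R2.Pin.IsR2Component G H := by
  have h : Related G = Pool.Agent.H135R2.Pin.Related G := by
    ext e f
    exact related_iff hp G e f
  unfold IsR2Component Pool.Agent.H135R2.Pin.IsR2Component
  rw [h]

theorem clsSub_isComp {p₀ : Conf V} (hp : Gen p₀) (G : SimpleGraph V) {f : Sym2 V}
    (hf : f ∈ G.edgeSet) : Pool.Agent.H135R2.Pin.IsR2Component G (clsSub p₀ G f) := by
  refine ⟨f, hf, ?_, ?_⟩
  · rw [clsSub_edgeSet]
    ext g
    exact and_congr_right fun _ => (eqvGen_iff hp G f g).symm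
  · rw [clsSub_edgeSet]
    rfl

/-- Components are the subgraphs `clsSub`. -/
theorem comp_eq {p₀ : Conf V} (hp : Gen p₀) {G : SimpleGraph V} {H : G.Subgraph}
    (h : Pool.Agent.H135R2.Pin.IsR2Component G H) : ∃ f ∈ G.edgeSet, H = clsSub p₀ G f := by
  obtain ⟨e, he, h1, h2⟩ := h
  have h3 : H.edgeSet = cls p₀ G.edgeSet e := by
    rw [h1]
    ext g
    exact and_congr_right fun _ => eqvGen_iff hp G e g
  refine ⟨e, he, ?_⟩
  refine SimpleGraph.Subgraph.ext ?_ ?_
  · rw [h2, h3]; rfl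
  · ext a b
    rw [← SimpleGraph.Subgraph.mem_edgeSet, h3]
    rfl

theorem main (G : SimpleGraph V) (P : Set V) {v : V} (hv : v ∉ P)
    (h : UniquelyLocalizable G P v) :
    3 ≤ P.ncard ∧ ∃ (H : (addClique G P).Subgraph) (hvH : v ∈ H.verts),
      IsR2Component (addClique G P) H ∧
        ∀ b ∈ P, ∃ hb : b ∈ H.verts, HasDisjointPaths H.coe 3 ⟨v, hvH⟩ ⟨b, hb⟩ := by
  classical
  have h3 := three_le hv h
  refine ⟨h3, ?_⟩
  obtain ⟨x, hx, y, hy, z, hz, hxy, hxz, hyz⟩ := (two_lt_ncard (s := P)).1 (by omega)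
  set G' := addClique G P with hG'
  set E := G'.edgeSet with hE
  obtain ⟨p₀, hp⟩ := exists_generic V
  have hd : ∀ c, s(c, c) ∉ E := fun c hc => by simp [hE] at hc
  have hPE : ∀ a ∈ P, ∀ b ∈ P, a ≠ b → s(a, b) ∈ E := fun a ha b hb hab =>
    Or.inr ⟨hab, ha, hb⟩
  have hvP : ∀ b ∈ P, v ≠ b := fun b hb h0 => hv (by rw [h0]; exact hb)
  have hgl : ∀ b ∈ P, GloballyLinked G' v b := fun b hb => glinked_of_loc hv h hb
  have hvb : ∀ b ∈ P, ∃ g, Cl p₀ (cls p₀ E g) s(v, b) := by
    intro b hb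
    obtain ⟨f, -, hf⟩ := main_a hp hd (hvP b hb) (glinked_of (hgl b hb))
    exact ⟨f, hf⟩
  have hbb : ∀ a ∈ P, ∀ b ∈ P, a ≠ b → ∃ g, Cl p₀ (cls p₀ E g) s(a, b) := fun a ha b hb hab =>
    ⟨s(a, b), cl_self (cls_self (hPE a ha b hb hab))⟩
  -- the component
  set f₀ : Sym2 V := s(x, y) with hf₀
  have hf₀E : f₀ ∈ E := hPE x hx y hy hxy
  have hf₀c : Cl p₀ (cls p₀ E f₀) s(x, y) := cl_self (cls_self hf₀E)
  have hxs : x ∈ supp (cls p₀ E f₀) := mem_supp_of_cl hp hxy hf₀c
  have hys : y ∈ supp (cls p₀ E f₀) := mem_supp_of_cl hp hxy.symm (by rw [Sym2.eq_swap]; exact hf₀c)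
  have hbv : ∀ b, b ≠ x → b ≠ y → b ∈ P → v ∈ supp (cls p₀ E f₀) ∧ b ∈ supp (cls p₀ E f₀) := by
    intro b hbx hby hb
    refine four hp hd hxy (hvP x hx).symm hbx.symm (hvP y hy).symm hby.symm (hvP b hb) hf₀c
      ?_ (hbb x hx b hb hbx.symm) ?_ (hbb y hy b hb hby.symm) (hvb b hb)
    · rw [Sym2.eq_swap]; exact hvb x hx
    · rw [Sym2.eq_swap]; exact hvb y hy
  have hvs : v ∈ supp (cls p₀ E f₀) := (hbv z hxz.symm hyz.symm hz).1
  have hbs : ∀ b ∈ P, b ∈ supp (cls p₀ E f₀) := by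
    intro b hb
    by_cases hbx : b = x
    · rw [hbx]; exact hxs
    by_cases hby : b = y
    · rw [hby]; exact hys
    exact (hbv b hbx hby hb).2
  -- edges between these vertices belong to the class
  have hmem : ∀ a b, s(a, b) ∈ E → a ∈ supp (cls p₀ E f₀) → b ∈ supp (cls p₀ E f₀) →
      s(a, b) ∈ cls p₀ E f₀ := by
    intro a b hab ha hb
    have hne : a ≠ b := by rintro rfl; exact hd _ hab
    have h1 : cls p₀ E f₀ = cls p₀ E s(a, b) :=
      cls_unique hp hne (cl_of_supp hp hd ha hb) (cl_self (cls_self hab))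
    rw [h1]
    exact cls_self hab
  set H := clsSub p₀ G' f₀ with hH
  have hvH : v ∈ H.verts := hvs
  have hbH : ∀ b ∈ P, b ∈ H.verts := hbs
  have hcomp : IsR2Component G' H := (isR2Component_iff hp G' H).2 (clsSub_isComp hp G' hf₀E)
  have hadj : ∀ (a b : H.verts), H.coe.Adj a b ↔ s((a : V), (b : V)) ∈ cls p₀ E f₀ :=
    fun a b => Iff.rfl
  -- nonadjacent pairs
  have hnon : ∀ b (hb : b ∈ P), s(v, b) ∉ E →
      HasDisjointPaths H.coe 3 ⟨v, hvH⟩ ⟨b, hbH b hb⟩ := by
    intro b hb hvbE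
    rcases thm G' (hvP b hb) (hgl b hb) with h1 | ⟨H', hx', hy', hH', hpaths⟩
    · exact absurd h1 hvbE
    · obtain ⟨f, hf, rfl⟩ := comp_eq hp hH'
      have h1 : cls p₀ E f = cls p₀ E f₀ :=
        cls_unique hp (hvP b hb) (cl_of_supp hp hd hx' hy') (cl_of_supp hp hd hvs (hbs b hb))
      have h2 : clsSub p₀ G' f = H := by
        refine SimpleGraph.Subgraph.ext ?_ ?_
        · change supp (cls p₀ G'.edgeSet f) = supp (cls p₀ G'.edgeSet f₀)
          rw [← hE, h1]
        · ext a c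
          change s(a, c) ∈ cls p₀ G'.edgeSet f ↔ s(a, c) ∈ cls p₀ G'.edgeSet f₀
          rw [← hE, h1]
      revert hx' hy' hpaths
      rw [h2]
      intro hx' hy' hpaths
      exact hpaths
  refine ⟨H, hvH, hcomp, fun b hb => ⟨hbH b hb, ?_⟩⟩
  by_cases hvbE : s(v, b) ∈ E
  · -- adjacent pairs
    have : Fintype H.verts := Fintype.ofFinite _
    refine three_of_adj ((hadj _ _).2 (hmem v b hvbE hvs (hbs b hb))) ?_
    intro A S hvA hbA hvS hbS hA
    by_contra hcard
    push Not at hcard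
    -- a vertex of `P` different from `b` and not in `S`
    have hex : ∃ b' ∈ P, b' ≠ b ∧ ∀ hb' : b' ∈ H.verts, (⟨b', hb'⟩ : H.verts) ∉ S := by
      by_contra hcon
      push Not at hcon
      have hsub : P ⊆ insert b (Subtype.val '' (S : Set H.verts)) := by
        intro c hc
        by_cases hcb : c = b
        · exact Or.inl hcb
        · obtain ⟨hc1, hc2⟩ := hcon c hc hcb
          exact Or.inr ⟨⟨c, hc1⟩, hc2, rfl⟩
      have h4 := ncard_le_ncard hsub (toFinite _)
      have h5 := ncard_insert_le b (Subtype.val '' (S : Set H.verts))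
      have h6 : (Subtype.val '' (S : Set H.verts)).ncard ≤ S.card := by
        have := ncard_image_le (f := (Subtype.val : H.verts → V)) (s := (S : Set H.verts))
          (toFinite _)
        rwa [ncard_coe_finset] at this
      omega
    obtain ⟨b', hb'P, hb'b, hb'S⟩ := hex
    have hb'H := hbH b' hb'P
    have hb'A : (⟨b', hb'H⟩ : H.verts) ∉ A := by
      intro hcon
      rcases hA ⟨b', hb'H⟩ ⟨b, hbH b hb⟩ hcon hbA
        ((hadj _ _).2 (hmem b' b (hPE b' hb'P b hb hb'b) (hbs b' hb'P) (hbs b hb))) with h1 | h1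
      · have := congrArg Subtype.val h1.1
        exact hvP b' hb'P this.symm
      · exact hbS h1
    have hvb' : s(v, b') ∉ E := by
      intro hcon
      rcases hA ⟨v, hvH⟩ ⟨b', hb'H⟩ hvA hb'A
        ((hadj _ _).2 (hmem v b' hcon hvs (hbs b' hb'P))) with h1 | h1
      · exact hb'b (congrArg Subtype.val h1.2)
      · exact hb'S hb'H h1
    have hpaths := hnon b' hb'P hvb'
    have h4 := sep_card hpaths A (insert ⟨b, hbH b hb⟩ S) hvA hb'A (by
      rw [Finset.mem_insert]
      rintro (h1 | h1)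
      · exact hb'b (congrArg Subtype.val h1)
      · exact hb'S hb'H h1) (by
      intro a c ha hc hac
      rw [Finset.mem_insert]
      rcases hA a c ha hc hac with h1 | h1
      · exact Or.inl h1.2
      · exact Or.inr h1)
    have h5 := Finset.card_insert_le (⟨b, hbH b hb⟩ : H.verts) S
    omega
  · exact hnon b hb hvbE

end Pool.Agent.H174R2.UL
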