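import Pool.Agent.H174R2.UL.Defs
import Pool.Agent.H135R2.Pin.Paths

set_option autoImplicit false
set_option linter.unusedSectionVars false
set_option linter.unusedSimpArgs false

/-! # Openly disjoint paths and separators -/

namespace Pool.Agent.H174R2.UL

open Set

/-- A separator meets all openly disjoint paths. -/
theorem sep_card {W : Type*} {H : SimpleGraph W} {k : ℕ} {x y : W}
    (h : HasDisjointPaths H k x y) (A : Set W) (S : Finset W) (hx : x ∈ A) (hy : y ∉ A)
    (hyS : y ∉ S) (hA : ∀ a b, a ∈ A → b ∉ A → H.Adj a b → b ∈ S) : k ≤ S.card := by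
  obtain ⟨P, -, -, hP⟩ := h
  have hex : ∀ i, ∃ z ∈ (P i).support, z ∉ A ∧ z ∈ S := by
    intro i
    obtain ⟨d, hd1, hd2, hd3⟩ := (P i).exists_boundary_dart A hx hy
    exact ⟨d.snd, (P i).dart_snd_mem_support_of_mem_darts hd1, hd3, hA _ _ hd2 hd3 d.adj⟩
  choose z hz1 hz2 hz3 using hex
  have hinj : Function.Injective (fun i => (⟨z i, hz3 i⟩ : S)) := by
    intro i j hij
    by_contra hne
    have h1 : z i = z j := congrArg Subtype.val hij
    rcases hP i j hne (z i) (hz1 i) (by rw [h1]; exact hz1 j) with h2 | h2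
    · exact hz2 i (by rw [h2]; exact hx)
    · exact hyS (by rw [← h2]; exact hz3 i)
  have := Fintype.card_le_of_injective _ hinj
  simpa using this

theorem no_short {W : Type*} {H : SimpleGraph W} {x y : W} (hxy : x ≠ y) (hna : ¬ H.Adj x y)
    (w : H.Walk x y) (hv : ∀ v ∈ w.support, v = x ∨ v = y) : False := by
  cases w with
  | nil => exact hxy rfl
  | cons hadj' w' =>
    rename_i u
    have h3 := hv u (by simp)
    rcases h3 with rfl | rfl
    · exact H.loopless.irrefl _ hadj'
    · exact hna hadj'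

/-- Menger's theorem for three paths between adjacent vertices. -/
theorem three_of_adj {W : Type*} [Fintype W] [DecidableEq W] {H : SimpleGraph W} {x y : W}
    (hadj : H.Adj x y)
    (hsep : ∀ (A : Set W) (S : Finset W), x ∈ A → y ∉ A → x ∉ S → y ∉ S →
      (∀ a b, a ∈ A → b ∉ A → H.Adj a b → (a = x ∧ b = y) ∨ b ∈ S) → 2 ≤ S.card) :
    HasDisjointPaths H 3 x y := by
  have hxy : x ≠ y := hadj.ne
  set H' := H.deleteEdges {s(x, y)} with hH'
  have hle : H' ≤ H := SimpleGraph.deleteEdges_le _
  have hna : ¬ H'.Adj x y := by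
    rw [hH', SimpleGraph.deleteEdges_adj]
    simp
  obtain ⟨P, hP1, hP2⟩ := Pool.Agent.H135R2.Menger.menger_paths H' hxy hna 2 (by
    intro A S hx hy hxS hyS hA
    refine hsep A S hx hy hxS hyS ?_
    intro a b ha hb hab
    by_cases hab' : H'.Adj a b
    · exact Or.inr (hA a b ha hb hab')
    · left
      rw [hH', SimpleGraph.deleteEdges_adj] at hab'
      push Not at hab'
      have h1 := hab' hab
      rw [mem_singleton_iff, Sym2.eq_iff] at h1
      rcases h1 with h1 | ⟨h1, h2⟩
      · exact h1
      · exact absurd hx (by rw [← h2]; exact hb))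
  let Q : Fin 3 → H.Walk x y :=
    Fin.cons (SimpleGraph.Walk.cons hadj SimpleGraph.Walk.nil) (fun i => (P i).mapLe hle)
  have hQ0 : Q 0 = SimpleGraph.Walk.cons hadj SimpleGraph.Walk.nil := rfl
  have hQs : ∀ i : Fin 2, Q i.succ = (P i).mapLe hle := fun i => rfl
  have hsup : ∀ i : Fin 2, (Q i.succ).support = (P i).support := fun i => by
    rw [hQs, SimpleGraph.Walk.support_mapLe_eq_support]
  have hdis : ∀ i j, i ≠ j → ∀ v ∈ (Q i).support, v ∈ (Q j).support → v = x ∨ v = y := by
    intro i j hij v hv1 hv2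
    refine Fin.cases (motive := fun i => i ≠ j → v ∈ (Q i).support → v = x ∨ v = y) ?_ ?_ i hij hv1
    · intro _ h1
      rw [hQ0] at h1
      simpa using h1
    · intro i' hi' h1
      revert hv2 hi'
      refine Fin.cases (motive := fun j => v ∈ (Q j).support → i'.succ ≠ j → v = x ∨ v = y)
        ?_ ?_ j
      · intro h2 _
        rw [hQ0] at h2
        simpa using h2
      · intro j' h2 hne
        rw [hsup] at h1 h2
        exact hP2 i' j' (fun h0 => hne (by rw [h0])) v h1 h2
  refine ⟨Q, ?_, ?_, hdis⟩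
  · intro i j hij
    by_contra hne
    have h1 := hdis i j hne
    rw [← hij] at h1
    -- one of `i`, `j` is a successor
    have hex : ∃ l : Fin 2, Q l.succ = Q i := by
      rcases Fin.eq_zero_or_eq_succ i with h0 | ⟨l, hl⟩
      · rcases Fin.eq_zero_or_eq_succ j with h0' | ⟨l, hl⟩
        · exact absurd (h0.trans h0'.symm) hne
        · exact ⟨l, by rw [← hl, hij]⟩
      · exact ⟨l, by rw [← hl]⟩
    obtain ⟨l, hl⟩ := hex
    refine no_short hxy hna (P l) (fun v hv => ?_)
    have h2 : v ∈ (Q i).support := by rw [← hl, hsup]; exact hv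
    exact h1 v h2 h2
  · intro i
    refine Fin.cases (motive := fun i => (Q i).IsPath) ?_ ?_ i
    · rw [hQ0]
      simp [hxy]
    · intro i'
      rw [hQs]
      exact (SimpleGraph.Walk.isPath_mapLe hle).2 (hP1 i')

end Pool.Agent.H174R2.UL
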